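import Mathlib
import Pool.Agent.MP_4a8842_an.Main

namespace Pool.Agent.Results.MP_4a8842_an.DiscreteNotFlow

open Pool.Agent.MP_4a8842_an

theorem result : ∃ (X : Type) (_ : MetricSpace X) (_ : CompactSpace X) (_ : MeasurableSpace X)
    (_ : BorelSpace X) (φ : Flow ℝ X), (∀ x, ∃ t, φ t x ≠ x) ∧ DSBP φ ∧
      ¬ SFBP φ ∧ ¬ BurguetSFBP φ ∧ ¬ LocalSFBP φ := by
  obtain ⟨X, i1, i2, i3, i4, φ, h1, h2, h3⟩ := main
  exact ⟨X, i1, i2, i3, i4, φ, h1, h2, fun h => h3 (h.local h1), fun h => h3 (h.local h1), h3⟩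

end Pool.Agent.Results.MP_4a8842_an.DiscreteNotFlow
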